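import Pool.Agent.helper22.ACC.Defs

/-!
# Nondegenerate complete intersections in affine toric varieties

Let `X` be the affine toric variety with torus-fixed point `x` which is given by the lattice `ℤ^n` and
a pointed `n`-dimensional rational polyhedral cone `σ`, generated by integral vectors `v i` (for
instance the primitive generators of its rays). Let `Y ⊂ X` be a nondegenerate complete intersection:
the closure of the common zero set in the torus of Laurent polynomials `g_1, …, g_c`, where `G_j` is
the set of exponents of `g_j` and the divisors `H_j`, the closures of the zero sets of the `g_j`, pass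
through `x`; they are not necessarily `ℚ`-Cartier. Nondegenerate means: for each `w ∈ σ`, the zero set
in the torus of the initial forms of the `g_j` with respect to `w` is empty or smooth of codimension
`c` (reduced, as a scheme); this holds if the coefficients of the `g_j` are generic. For `w` in the
interior of `σ` this zero set is nonempty exactly if Rado's condition holds for the faces of the `G_j`
at `w` (theorem of Bernstein, Kouchnirenko and Khovanskii); this is the condition `Trop` below.

For a toric modification of `X` with smooth total space, such that the functions `low (G j)` are linear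
on the cones of its fan, the strict transform of `Y` is smooth and transversal to the torus-invariant
strata. Hence the minimal log discrepancy at `x` of a pair `(Y, B + M)` induced by torus-invariant data
on `X` is the infimum of the log discrepancies of the valuations of `Y` given by the integral `w` in
the interior of `σ` which satisfy the condition `Trop`, and these are computed by adjunction: with
`(K_X + B + M + H_1 + … + H_c) | Y = K_Y + B_Y + M_Y` they are
`⟨psi, w⟩ - ∑ μ_k low (S_k) w - ∑ j, low (G_j) w`.

The case `c = 0` are the toric pairs, `c = 1` the pairs on nondegenerate hypersurfaces.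
-/

noncomputable section

namespace Pool.Agent.helper10.NDH

open Finset Pool.Agent.helper22.ACC

variable {n c r : ℕ}

/-- The data of a generalized pair `(Y, B + M)` on a complete intersection in a toric variety of
dimension `n`, together with `r` additional divisors `D_j`, each with a nef part `N_j`. -/
structure Data (n r : ℕ) where
  /-- the number of the given generators of the cone `σ` -/
  p : ℕ
  /-- the generators `v i` of the cone `σ` -/
  v : Fin p → Fin n → ℤ
  /-- the codimension of `Y` -/
  c : ℕ
  /-- the sets of exponents of the `c` equations of `Y` -/
  G : Fin c → Finset (Fin n → ℤ)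
  /-- the linear function of `K + B + M + H_1 + … + H_c` -/
  psi : Fin n → ℝ
  /-- the coefficients `μ_k` of the nef part together with the finite sets `S_k` of characters -/
  parts : List (ℝ × Finset (Fin n → ℤ))
  /-- the linear functions of the divisors `D_j + N_j` -/
  phi : Fin r → Fin n → ℝ
  /-- for each `j` the coefficients `ν_k` together with the finite sets `T_k` of characters -/
  dparts : Fin r → List (ℝ × Finset (Fin n → ℤ))

/-- the cone `σ`: all nonnegative combinations of the generators -/
def cone (t : Data n r) : Set (Fin n → ℝ) :=
  {w | ∃ μ : Fin t.p → ℝ, (∀ i, 0 ≤ μ i) ∧ ∀ j, w j = ∑ i, μ i * (t.v i j : ℝ)}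

open Classical in
/-- the face of `S` at `w`: the members of `S` at which `pair m w` is least -/
def face (S : Finset (Fin n → ℤ)) (w : Fin n → ℝ) : Finset (Fin n → ℤ) :=
  S.filter fun m => pair m w = low S w

/-- the span of the differences of the members of the faces of the `G j` at `w`, for `j ∈ J` -/
def faceSpan (G : Fin c → Finset (Fin n → ℤ)) (J : Finset (Fin c)) (w : Fin n → ℝ) :
    Submodule ℝ (Fin n → ℝ) :=
  Submodule.span ℝ {x | ∃ j ∈ J, ∃ m ∈ face (G j) w, ∃ m' ∈ face (G j) w, x = toReal (m - m')}

/-- `w`, in the interior of `σ`, is in the tropical variety of the nondegenerate complete intersections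
with the sets `G j` of exponents: Rado's condition for the faces of the `G j` at `w` -/
def Trop (G : Fin c → Finset (Fin n → ℤ)) (w : Fin n → ℝ) : Prop :=
  ∀ J : Finset (Fin c), J.card ≤ Module.finrank ℝ (faceSpan G J w)

/-- the log discrepancy along `w`, for the linear function `psi` and the nef part `parts` -/
def disc (G : Fin c → Finset (Fin n → ℤ)) (psi : Fin n → ℝ)
    (parts : List (ℝ × Finset (Fin n → ℤ))) (w : Fin n → ℝ) : ℝ :=
  ∑ i, psi i * w i - (parts.map fun a => a.1 * low a.2 w).sum - ∑ j, low (G j) w

/-- the order of the `j`-th divisor `D_j + N_j` along `w` -/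
def order (t : Data n r) (j : Fin r) (w : Fin n → ℝ) : ℝ :=
  ∑ i, t.phi j i * w i + ((t.dparts j).map fun a => a.1 * low a.2 w).sum

/-- `Y` is of klt type: for some torus-invariant boundary and nef part, all log discrepancies of
the nonzero (real) points of `σ` are positive. By the criterion in terms of Newton polyhedra, the
generalized pair on `Y` which they induce is klt. -/
def KltType (t : Data n r) : Prop :=
  ∃ (psi : Fin n → ℝ) (parts : List (ℝ × Finset (Fin n → ℤ))),
    (∀ a ∈ parts, 0 ≤ a.1 ∧ a.2.Nonempty) ∧
    (∀ i, disc t.G psi parts (toReal (t.v i)) ≤ 1) ∧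
    ∀ w ∈ cone t, w ≠ 0 → 0 < disc t.G psi parts w

/-- `t` describes generalized pairs and divisors `D_j + N_j` on nondegenerate complete intersections
of klt type, with all coefficients in `Γ`; for the boundary and for `D_j`, sums of elements of `Γ` (in
particular `0`) are allowed -/
structure HasCoeff (Γ : Set ℝ) (t : Data n r) : Prop where
  /-- `σ` is pointed -/
  pointed : ∃ l : Fin n → ℝ, ∀ i, 0 < ∑ j, l j * (t.v i j : ℝ)
  /-- `σ` is `n`-dimensional -/
  full : (interior (cone t)).Nonempty
  /-- the equations have terms -/
  nonempty : ∀ j, (t.G j).Nonempty
  /-- each divisor `H_j` passes through the fixed point -/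
  fixedPoint : ∀ j, ∀ m ∈ t.G j, ∃ i, low (t.G j) (toReal (t.v i)) < pair m (toReal (t.v i))
  /-- `Y` is of klt type -/
  kltType : KltType t
  /-- the coefficients of the nef part lie in `Γ` -/
  parts : ∀ a ∈ t.parts, a.1 ∈ Γ ∧ a.2.Nonempty
  /-- the coefficients of the boundary are finite sums of elements of `Γ` -/
  boundary : ∀ i, 1 - disc t.G t.psi t.parts (toReal (t.v i)) ∈ AddSubmonoid.closure Γ
  /-- the coefficients of the nef parts `N_j` lie in `Γ` -/
  dparts : ∀ j, ∀ a ∈ t.dparts j, a.1 ∈ Γ ∧ a.2.Nonempty
  /-- the coefficients of the divisors `D_j` are finite sums of elements of `Γ` -/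
  divisors : ∀ j i, order t j (toReal (t.v i)) ∈ AddSubmonoid.closure Γ

/-- The `a`-lc threshold polytope: the set of all `s` with nonnegative coordinates such that the log
discrepancies of `(Y, B + M + ∑ s_j (D_j + N_j))` with centre `x` are at least `a`. -/
def thresholds (a : ℝ) (t : Data n r) : Set (Fin r → ℝ) :=
  {s | (∀ j, 0 ≤ s j) ∧ ∀ z : Fin n → ℤ, toReal z ∈ interior (cone t) → Trop t.G (toReal z) →
    a ≤ disc t.G t.psi t.parts (toReal z) - ∑ j, s j * order t j (toReal z)}

end Pool.Agent.helper10.NDH
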