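import Pool.Agent.helper10.NDH.Defs
import Pool.Agent.helper22.ACC.Main

/-!
# The hitting lemma

Finite sets `G j` of characters and a positive combination `w` of the vectors `v i`. If the faces
of the sets `G j` at `w` violate Rado's condition, so that `w` is not in the tropical variety of a
nondegenerate complete intersection with Newton sets `G j`, then there is a nonempty set `I` of
indices of vectors such that `I` hits at least `card I` of these faces.
-/

noncomputable section

namespace Pool.Agent.helper10.NDH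

open Finset Pool.Agent.helper22.ACC

variable {n c p : ℕ}

/-- the linear function given by the dot product with `u` -/
def dot (u : Fin n → ℝ) : (Fin n → ℝ) →ₗ[ℝ] ℝ :=
  ∑ k, u k • (LinearMap.proj k : (Fin n → ℝ) →ₗ[ℝ] ℝ)

theorem dot_apply (u x : Fin n → ℝ) : dot u x = ∑ k, x k * u k := by
  simp only [dot, LinearMap.sum_apply, LinearMap.smul_apply, LinearMap.proj_apply, smul_eq_mul]
  exact Finset.sum_congr rfl fun k _ => mul_comm _ _

theorem pair_eq (m : Fin n → ℤ) (u : Fin n → ℝ) : pair m u = dot u (toReal m) := by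
  rw [dot_apply]; rfl

theorem toReal_sub (m m' : Fin n → ℤ) : (toReal (m - m') : Fin n → ℝ) = toReal m - toReal m' := by
  funext k; simp [toReal]

theorem toReal_add (m m' : Fin n → ℤ) : (toReal (m + m') : Fin n → ℝ) = toReal m + toReal m' := by
  funext k; simp [toReal]

theorem dot_add (u u' : Fin n → ℝ) : dot (u + u') = dot u + dot u' := by
  ext x; simp [dot, add_smul, Finset.sum_add_distrib]

theorem dot_smul (t : ℝ) (u : Fin n → ℝ) : dot (t • u) = t • dot u := by
  ext x; simp [dot, Finset.smul_sum, mul_smul]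

theorem dot_sum {ι : Type*} (s : Finset ι) (a : ι → ℝ) (u : ι → Fin n → ℝ) :
    dot (∑ i ∈ s, a i • u i) = ∑ i ∈ s, a i • dot (u i) := by
  classical
  induction s using Finset.induction_on with
  | empty => ext x; simp [dot]
  | insert i s hi ih => rw [Finset.sum_insert hi, Finset.sum_insert hi, dot_add, dot_smul, ih]

theorem low_le {S : Finset (Fin n → ℤ)} {m : Fin n → ℤ} (hm : m ∈ S) (w : Fin n → ℝ) :
    low S w ≤ pair m w :=
  csInf_le (Set.Finite.bddBelow (S.finite_toSet.image _)) ⟨m, hm, rfl⟩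

theorem exists_low {S : Finset (Fin n → ℤ)} (hS : S.Nonempty) (w : Fin n → ℝ) :
    ∃ m ∈ S, pair m w = low S w := by
  obtain ⟨m, hm, h⟩ := Set.Nonempty.csInf_mem (s := (fun m => pair m w) '' (S : Set (Fin n → ℤ)))
    ⟨_, hS.choose, hS.choose_spec, rfl⟩ (S.finite_toSet.image _)
  exact ⟨m, hm, h⟩

theorem mem_face {S : Finset (Fin n → ℤ)} {w : Fin n → ℝ} {m : Fin n → ℤ} :
    m ∈ face S w ↔ m ∈ S ∧ pair m w = low S w := by
  simp [face]

theorem face_nonempty {S : Finset (Fin n → ℤ)} (hS : S.Nonempty) (w : Fin n → ℝ) :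
    (face S w).Nonempty := by
  obtain ⟨m, hm, h⟩ := exists_low hS w
  exact ⟨m, mem_face.2 ⟨hm, h⟩⟩

theorem faceSpan_mono (G : Fin c → Finset (Fin n → ℤ)) {J J' : Finset (Fin c)} (h : J ⊆ J')
    (w : Fin n → ℝ) : faceSpan G J w ≤ faceSpan G J' w := by
  apply Submodule.span_mono
  rintro x ⟨j, hj, m, hm, m', hm', rfl⟩
  exact ⟨j, h hj, m, hm, m', hm', rfl⟩

/-- a positive relation contains a minimal one -/
theorem minimal_relation {ι E : Type*} [DecidableEq ι] [AddCommGroup E] [Module ℝ E] (f : ι → E)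
    (S : Finset ι) (hS : S.Nonempty) (a : ι → ℝ) (ha : ∀ i ∈ S, 0 < a i)
    (h : ∑ i ∈ S, a i • f i = 0) :
    ∃ I ⊆ S, I.Nonempty ∧ (∃ b : ι → ℝ, (∀ i ∈ I, 0 < b i) ∧ ∑ i ∈ I, b i • f i = 0) ∧
      ∀ i0 ∈ I, LinearIndependent ℝ (fun i : ↥(I.erase i0) => f i) := by
  classical
  set P := S.powerset.filter fun I => I.Nonempty ∧
    ∃ b : ι → ℝ, (∀ i ∈ I, 0 < b i) ∧ ∑ i ∈ I, b i • f i = 0 with hP
  have hne : P.Nonempty := ⟨S, by
    rw [hP, Finset.mem_filter]
    exact ⟨Finset.mem_powerset_self S, hS, a, ha, h⟩⟩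
  obtain ⟨I, hI, hmin⟩ := Finset.exists_min_image P Finset.card hne
  rw [hP, Finset.mem_filter, Finset.mem_powerset] at hI
  obtain ⟨hIS, hI1, b, hb, hb0⟩ := hI
  refine ⟨I, hIS, hI1, ⟨b, hb, hb0⟩, fun i0 hi0 => ?_⟩
  by_contra hli
  rw [Fintype.not_linearIndependent_iff] at hli
  obtain ⟨g0, hg0, i1, hi1⟩ := hli
  obtain ⟨g, hg, i1, hi1⟩ : ∃ g : ↥(I.erase i0) → ℝ, ∑ i, g i • f i = 0 ∧
      ∃ i, 0 < g i := by
    rcases lt_or_gt_of_ne hi1 with h | h
    · refine ⟨fun i => - g0 i, ?_, i1, by simpa using h⟩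
      simp only [neg_smul, Finset.sum_neg_distrib]
      rw [hg0, neg_zero]
    · exact ⟨g0, hg0, i1, h⟩
  set e : ι → ℝ := fun i => if h : i ∈ I.erase i0 then g ⟨i, h⟩ else 0 with he
  have hes : ∀ i : ↥(I.erase i0), e i = g i := fun i => by
    simp only [he]; rw [dif_pos i.2]
  have he0 : ∀ i, i ∉ I.erase i0 → e i = 0 := fun i hi => by simp only [he]; rw [dif_neg hi]
  have hesum : ∑ i ∈ I, e i • f i = 0 := by
    have h1 : ∑ i ∈ I.erase i0, e i • f i = 0 := by
      rw [← hg, ← Finset.sum_congr rfl (fun i _ => by rw [hes i] : ∀ i ∈ (univ : Finset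
        ↥(I.erase i0)), e i • f i = g i • f i), Finset.sum_coe_sort (I.erase i0)
        (fun i => e i • f i)]
    rw [← Finset.add_sum_erase I _ hi0, h1, he0 i0 (Finset.notMem_erase i0 I), zero_smul, add_zero]
  set Q := I.filter fun i => 0 < e i with hQ
  have hQne : Q.Nonempty := ⟨i1, by
    rw [hQ, Finset.mem_filter, hes i1]; exact ⟨Finset.mem_of_mem_erase i1.2, hi1⟩⟩
  obtain ⟨j, hj, hjmin⟩ := Finset.exists_min_image Q (fun i => b i / e i) hQne
  rw [hQ, Finset.mem_filter] at hj
  obtain ⟨hjI, hej⟩ := hj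
  set t := b j / e j with ht
  have ht0 : 0 ≤ t := div_nonneg (hb j hjI).le hej.le
  set b' : ι → ℝ := fun i => b i - t * e i with hb'
  have h1 : ∀ i ∈ I, 0 ≤ b' i := by
    intro i hi
    by_cases hci : 0 < e i
    · have h2 := hjmin i (by rw [hQ, Finset.mem_filter]; exact ⟨hi, hci⟩)
      have h3 : t * e i ≤ b i := by
        rw [ht]
        calc b j / e j * e i ≤ b i / e i * e i := mul_le_mul_of_nonneg_right h2 hci.le
          _ = b i := div_mul_cancel₀ _ hci.ne'
      simp only [hb']; linarith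
    · have h2 : t * e i ≤ 0 := mul_nonpos_of_nonneg_of_nonpos ht0 (not_lt.1 hci)
      have h3 := hb i hi
      simp only [hb']; linarith
  have h2 : ∑ i ∈ I, b' i • f i = 0 := by
    simp only [hb', sub_smul, Finset.sum_sub_distrib, mul_smul, ← Finset.smul_sum, hesum, hb0,
      smul_zero, sub_zero]
  set I' := I.filter fun i => b' i ≠ 0 with hI'
  have hbj : b' j = 0 := by
    simp only [hb', ht]; rw [div_mul_cancel₀ _ hej.ne', sub_self]
  have hlt : I'.card < I.card := by
    apply Finset.card_lt_card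
    rw [Finset.ssubset_iff_of_subset (Finset.filter_subset _ _)]
    refine ⟨j, hjI, ?_⟩
    rw [Finset.mem_filter]
    rintro ⟨_, h3⟩
    exact h3 hbj
  have hmem : I' ∈ P := by
    rw [hP, Finset.mem_filter, Finset.mem_powerset]
    refine ⟨(Finset.filter_subset _ _).trans hIS, ⟨i0, ?_⟩, b', ?_, ?_⟩
    · rw [hI', Finset.mem_filter]
      refine ⟨hi0, ?_⟩
      have : b' i0 = b i0 := by
        simp only [hb']; rw [he0 i0 (Finset.notMem_erase i0 I), mul_zero, sub_zero]
      rw [this]; exact (hb i0 hi0).ne'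
    · intro i hi
      rw [hI', Finset.mem_filter] at hi
      exact lt_of_le_of_ne (h1 i hi.1) (Ne.symm hi.2)
    · rw [← h2, hI', Finset.sum_filter]
      refine Finset.sum_congr rfl fun i _ => ?_
      split_ifs with h3
      · rfl
      · rw [not_not] at h3; rw [h3, zero_smul]
  exact absurd (hmin I' hmem) (not_le.2 hlt)

open Classical in
/-- the indices of the `G j` all of whose members of the face at `w` are hit by `I` -/
def hits (v : Fin p → Fin n → ℤ) (G : Fin c → Finset (Fin n → ℤ)) (w : Fin n → ℝ)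
    (I : Finset (Fin p)) : Finset (Fin c) :=
  univ.filter fun j => ∀ m ∈ face (G j) w, ∃ i ∈ I, low (G j) (toReal (v i)) < pair m (toReal (v i))

theorem mem_hits {v : Fin p → Fin n → ℤ} {G : Fin c → Finset (Fin n → ℤ)} {w : Fin n → ℝ}
    {I : Finset (Fin p)} {j : Fin c} : j ∈ hits v G w I ↔
      ∀ m ∈ face (G j) w, ∃ i ∈ I, low (G j) (toReal (v i)) < pair m (toReal (v i)) := by
  simp [hits]

/-- **The hitting lemma** -/
theorem hitting (v : Fin p → Fin n → ℤ) (G : Fin c → Finset (Fin n → ℤ))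
    (hG : ∀ j, (G j).Nonempty)
    (hx : ∀ j, ∀ m ∈ G j, ∃ i, low (G j) (toReal (v i)) < pair m (toReal (v i)))
    {w : Fin n → ℝ} {a : Fin p → ℝ} (ha : ∀ i, 0 < a i) (hw : w = ∑ i, a i • toReal (v i))
    (ht : ¬ Trop G w) :
    ∃ I : Finset (Fin p), I.Nonempty ∧ I.card ≤ (hits v G w I).card := by
  classical
  -- a minimal violation of Rado's condition
  set P := (univ : Finset (Finset (Fin c))).filter fun J =>
    ¬ J.card ≤ Module.finrank ℝ (faceSpan G J w) with hP
  have hne : P.Nonempty := by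
    unfold Trop at ht
    push Not at ht
    obtain ⟨J, hJ⟩ := ht
    exact ⟨J, by rw [hP, Finset.mem_filter]; exact ⟨mem_univ _, not_le.2 hJ⟩⟩
  obtain ⟨J, hJ, hmin⟩ := Finset.exists_min_image P Finset.card hne
  rw [hP, Finset.mem_filter] at hJ
  have hJ1 : Module.finrank ℝ (faceSpan G J w) < J.card := not_le.1 hJ.2
  have hJ2 : ∀ J' ⊂ J, J'.card ≤ Module.finrank ℝ (faceSpan G J' w) := by
    intro J' hJ'
    by_contra h
    have h1 := hmin J' (by rw [hP, Finset.mem_filter]; exact ⟨mem_univ _, h⟩)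
    exact absurd (Finset.card_lt_card hJ') (not_lt.2 h1)
  set L := faceSpan G J w with hL
  -- the functionals of the vectors
  set ev : Fin p → Module.Dual ℝ L := fun i => (dot (toReal (v i))).comp L.subtype with hev
  have hev1 : ∀ i (x : L), ev i x = dot (toReal (v i)) (x : Fin n → ℝ) := fun i x => rfl
  -- `w` vanishes on `L`
  have hw0 : ∀ x ∈ L, dot w x = 0 := by
    intro x hx'
    rw [hL] at hx'
    unfold faceSpan at hx'
    induction hx' using Submodule.span_induction with
    | mem x hx =>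
      obtain ⟨j, hj, m, hm, m', hm', rfl⟩ := hx
      rw [toReal_sub, map_sub, ← pair_eq, ← pair_eq, (mem_face.1 hm).2, (mem_face.1 hm').2,
        sub_self]
    | zero => exact map_zero _
    | add x y _ _ hx hy => rw [map_add, hx, hy, add_zero]
    | smul t x _ hx => rw [map_smul, hx, smul_zero]
  have hrel : ∑ i, a i • ev i = 0 := by
    ext x
    have h1 := hw0 x x.2
    rw [hw, dot_sum] at h1
    simp only [LinearMap.sum_apply, LinearMap.smul_apply] at h1 ⊢
    exact h1
  -- differences of members of faces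
  have hdiff : ∀ j ∈ J, ∀ m ∈ face (G j) w, ∀ m' ∈ face (G j) w, toReal (m - m') ∈ L :=
    fun j hj m hm m' hm' => Submodule.subset_span ⟨j, hj, m, hm, m', hm', rfl⟩
  have hdiff2 : ∀ j, ∀ hj : j ∈ J, ∀ m, ∀ hm : m ∈ face (G j) w, ∀ m', ∀ hm' : m' ∈ face (G j) w, ∀ i,
      ev i ⟨_, hdiff j hj m hm m' hm'⟩ = pair m (toReal (v i)) - pair m' (toReal (v i)) := by
    intro j hj m hm m' hm' i
    rw [hev1]
    simp only [toReal_sub, map_sub, ← pair_eq]
  by_cases hZ : ∃ i, ev i = 0 ∧ ∃ j ∈ J, ∃ m ∈ face (G j) w,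
      low (G j) (toReal (v i)) < pair m (toReal (v i))
  · obtain ⟨i, hi, j, hj, m, hm, hlt⟩ := hZ
    refine ⟨{i}, Finset.singleton_nonempty i, ?_⟩
    rw [Finset.card_singleton, Nat.succ_le_iff, Finset.card_pos]
    refine ⟨j, mem_hits.2 fun m' hm' => ⟨i, Finset.mem_singleton_self i, ?_⟩⟩
    have h1 := hdiff2 j hj m hm m' hm' i
    rw [hi, LinearMap.zero_apply] at h1
    linarith
  push Not at hZ
  set S := (univ : Finset (Fin p)).filter fun i => ev i ≠ 0 with hS
  have hSne : S.Nonempty := by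
    have hJne : J.Nonempty := Finset.card_pos.1 (lt_of_le_of_lt (Nat.zero_le _) hJ1)
    obtain ⟨j, hj⟩ := hJne
    obtain ⟨m, hm⟩ := face_nonempty (hG j) w
    obtain ⟨i, hi⟩ := hx j m (mem_face.1 hm).1
    refine ⟨i, ?_⟩
    rw [hS, Finset.mem_filter]
    refine ⟨mem_univ _, fun h0 => ?_⟩
    exact absurd hi (not_lt.2 (hZ i h0 j hj m hm))
  have hrelS : ∑ i ∈ S, a i • ev i = 0 := by
    rw [← hrel, hS, Finset.sum_filter]
    refine Finset.sum_congr rfl fun i _ => ?_
    split_ifs with h
    · rfl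
    · rw [not_not] at h; rw [h, smul_zero]
  obtain ⟨I, hIS, hI1, ⟨b, hb, hb0⟩, hI2⟩ := minimal_relation ev S hSne a (fun i _ => ha i) hrelS
  obtain ⟨i0, hi0⟩ := hI1
  refine ⟨I, ⟨i0, hi0⟩, ?_⟩
  -- the unhit members of `J`
  set J1 := J.filter fun j => j ∉ hits v G w I with hJ1'
  have hunhit : ∀ j ∈ J1, ∀ m ∈ face (G j) w, ∀ m' ∈ face (G j) w, ∀ i ∈ I,
      pair m (toReal (v i)) = pair m' (toReal (v i)) := by
    intro j hj
    rw [hJ1', Finset.mem_filter, mem_hits] at hj
    obtain ⟨hjJ, hj2⟩ := hj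
    push Not at hj2
    obtain ⟨m0, hm0, hm0'⟩ := hj2
    have key : ∀ m ∈ face (G j) w, ∀ i ∈ I, pair m (toReal (v i)) = pair m0 (toReal (v i)) := by
      intro m hm
      have h1 : ∀ i ∈ I, 0 ≤ b i * (pair m (toReal (v i)) - pair m0 (toReal (v i))) := by
        intro i hi
        have h2 := low_le (mem_face.1 hm).1 (toReal (v i))
        have h3 := hm0' i hi
        exact mul_nonneg (hb i hi).le (by linarith)
      have h4 : ∑ i ∈ I, b i * (pair m (toReal (v i)) - pair m0 (toReal (v i))) = 0 := by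
        have h5 := congrArg (fun f : Module.Dual ℝ L => f ⟨_, hdiff j hjJ m hm m0 hm0⟩) hb0
        simp only [LinearMap.sum_apply, LinearMap.smul_apply, LinearMap.zero_apply,
          hdiff2 j hjJ m hm m0 hm0, smul_eq_mul] at h5
        exact h5
      intro i hi
      have h6 := (Finset.sum_eq_zero_iff_of_nonneg h1).1 h4 i hi
      rcases mul_eq_zero.1 h6 with h7 | h7
      · exact absurd h7 (hb i hi).ne'
      · linarith
    intro m hm m' hm' i hi
    rw [key m hm i hi, key m' hm' i hi]
  have hvan : ∀ i ∈ I, ∀ x ∈ faceSpan G J1 w, dot (toReal (v i)) x = 0 := by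
    intro i hi x hx'
    unfold faceSpan at hx'
    induction hx' using Submodule.span_induction with
    | mem x hx =>
      obtain ⟨j, hj, m, hm, m', hm', rfl⟩ := hx
      rw [toReal_sub, map_sub, ← pair_eq, ← pair_eq, hunhit j hj m hm m' hm' i hi, sub_self]
    | zero => exact map_zero _
    | add x y _ _ hx hy => rw [map_add, hx, hy, add_zero]
    | smul t x _ hx => rw [map_smul, hx, smul_zero]
  have hsub : J1 ⊆ J := Finset.filter_subset _ _
  have hss : J1 ⊂ J := by
    rcases eq_or_ssubset_of_subset hsub with h | h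
    · exfalso
      have h1 := hIS hi0
      rw [hS, Finset.mem_filter] at h1
      apply h1.2
      ext x
      rw [hev1, LinearMap.zero_apply]
      apply hvan i0 hi0
      rw [h]
      exact x.2
    · exact h
  -- dimension count
  set W : Submodule ℝ (Module.Dual ℝ L) :=
    Submodule.span ℝ (Set.range fun i : ↥(I.erase i0) => ev i) with hW
  have hWr : Module.finrank ℝ W = (I.erase i0).card := by
    rw [hW, finrank_span_eq_card (hI2 i0 hi0), Fintype.card_coe]
  have hdim := Subspace.finrank_add_finrank_dualCoannihilator_eq W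
  have hle : Submodule.comap L.subtype (faceSpan G J1 w) ≤ W.dualCoannihilator := by
    intro x hx'
    rw [Submodule.mem_dualCoannihilator]
    intro φ hφ
    rw [hW] at hφ
    induction hφ using Submodule.span_induction with
    | mem f hf =>
      obtain ⟨i, rfl⟩ := hf
      exact hvan i (Finset.mem_of_mem_erase i.2) _ hx'
    | zero => rfl
    | add f g _ _ hf hg => rw [LinearMap.add_apply, hf, hg, add_zero]
    | smul t f _ hf => rw [LinearMap.smul_apply, hf, smul_zero]
  have hfr : Module.finrank ℝ (Submodule.comap L.subtype (faceSpan G J1 w)) =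
      Module.finrank ℝ (faceSpan G J1 w) :=
    (Submodule.comapSubtypeEquivOfLe (faceSpan_mono G hsub w)).finrank_eq
  have h1 : J1.card ≤ Module.finrank ℝ W.dualCoannihilator := by
    refine (hJ2 J1 hss).trans ?_
    rw [← hfr]
    exact Submodule.finrank_mono hle
  have h2 : (I.erase i0).card + 1 = I.card := Finset.card_erase_add_one hi0
  have h3 : (J \ J1).card + J1.card = J.card := Finset.card_sdiff_add_card_eq_card hsub
  have h4 : (J \ J1).card ≤ (hits v G w I).card := by
    apply Finset.card_le_card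
    intro j hj
    rw [Finset.mem_sdiff, hJ1', Finset.mem_filter] at hj
    by_contra h
    exact hj.2 ⟨hj.1, h⟩
  rw [hWr] at hdim
  omega

end Pool.Agent.helper10.NDH
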