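import Pool.Agent.helper10.NDH.Pia

/-!
# Precise inversion of adjunction: termination and the limit argument
-/

noncomputable section

namespace Pool.Agent.helper10.NDH

open Finset Pool.Agent.helper22.ACC Filter Topology

variable {n c p : ℕ}

/-- the value of the linear function `l` -/
def ev (l w : Fin n → ℝ) : ℝ := ∑ j, l j * w j

theorem ev_add (l x y : Fin n → ℝ) : ev l (x + y) = ev l x + ev l y := by
  simp [ev, mul_add, Finset.sum_add_distrib]

theorem ev_smul (l : Fin n → ℝ) (t : ℝ) (x : Fin n → ℝ) : ev l (t • x) = t * ev l x := by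
  simp only [ev, Pi.smul_apply, smul_eq_mul, Finset.mul_sum]
  exact Finset.sum_congr rfl fun i _ => by ring

theorem ev_cont (l : Fin n → ℝ) : Continuous (ev l) := by
  unfold ev
  fun_prop

theorem ev_sum (l : Fin n → ℝ) {ι : Type*} (s : Finset ι) (y : ι → Fin n → ℝ) :
    ev l (∑ i ∈ s, y i) = ∑ i ∈ s, ev l (y i) := by
  classical
  induction s using Finset.induction_on with
  | empty => simp [ev]
  | insert i s hi ih => rw [Finset.sum_insert hi, Finset.sum_insert hi, ev_add, ih]

/-- positivity of the linear function on the cone -/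
theorem ev_pos {v : Fin p → Fin n → ℤ} {l : Fin n → ℝ} (hl : ∀ i, 0 < ev l (toReal (v i)))
    {w : Fin n → ℝ} (hw : w ∈ coneOf v) (h0 : w ≠ 0) : 0 < ev l w := by
  obtain ⟨μ, hμ, rfl⟩ := mem_coneOf.1 hw
  rw [ev_sum]
  simp only [ev_smul]
  refine Finset.sum_pos' (fun i _ => mul_nonneg (hμ i) (hl i).le) ?_
  by_contra h
  push Not at h
  apply h0
  refine Finset.sum_eq_zero fun i hi => ?_
  have h1 := h i hi
  have h2 : μ i = 0 := by
    by_contra h3
    have h4 : 0 < μ i := lt_of_le_of_ne (hμ i) (Ne.symm h3)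
    exact absurd h1 (not_le.2 (mul_pos h4 (hl i)))
  rw [h2, zero_smul]

theorem ev_nonneg {v : Fin p → Fin n → ℤ} {l : Fin n → ℝ} (hl : ∀ i, 0 < ev l (toReal (v i)))
    {w : Fin n → ℝ} (hw : w ∈ coneOf v) : 0 ≤ ev l w := by
  by_cases h0 : w = 0
  · rw [h0]; simp [ev]
  · exact (ev_pos hl hw h0).le

/-- the slice of the cone is compact -/
theorem slice_compact (v : Fin p → Fin n → ℤ) {l : Fin n → ℝ}
    (hl : ∀ i, 0 < ev l (toReal (v i))) : IsCompact {w | w ∈ coneOf v ∧ ev l w = 1} := by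
  set A : Set (Fin p → ℝ) := {μ | (∀ i, 0 ≤ μ i) ∧ ∑ i, μ i * ev l (toReal (v i)) = 1} with hA
  have hAc : IsCompact A := by
    apply IsCompact.of_isClosed_subset (isCompact_Icc (a := (0 : Fin p → ℝ))
      (b := fun i => 1 / ev l (toReal (v i))))
    · have h1 : IsClosed {μ : Fin p → ℝ | ∀ i, 0 ≤ μ i} := by
        have : {μ : Fin p → ℝ | ∀ i, 0 ≤ μ i} = ⋂ i, {μ | 0 ≤ μ i} := by ext; simp
        rw [this]
        exact isClosed_iInter fun i => isClosed_le continuous_const (continuous_apply i)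
      have h2 : IsClosed {μ : Fin p → ℝ | ∑ i, μ i * ev l (toReal (v i)) = 1} :=
        isClosed_eq (by fun_prop) continuous_const
      exact h1.inter h2
    · rintro μ ⟨h1, h2⟩
      refine ⟨fun i => h1 i, fun i => ?_⟩
      rw [le_div_iff₀ (hl i)]
      calc μ i * ev l (toReal (v i)) ≤ ∑ i, μ i * ev l (toReal (v i)) :=
            Finset.single_le_sum (f := fun i => μ i * ev l (toReal (v i)))
              (fun j _ => mul_nonneg (h1 j) (hl j).le) (mem_univ i)
        _ = 1 := h2
  have hc : Continuous fun μ : Fin p → ℝ => ∑ i, μ i • (toReal (v i) : Fin n → ℝ) := by fun_prop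
  have him : {w | w ∈ coneOf v ∧ ev l w = 1} =
      (fun μ : Fin p → ℝ => ∑ i, μ i • (toReal (v i) : Fin n → ℝ)) '' A := by
    ext w
    constructor
    · rintro ⟨hw, h1⟩
      obtain ⟨μ, hμ, rfl⟩ := mem_coneOf.1 hw
      refine ⟨μ, ⟨hμ, ?_⟩, rfl⟩
      rw [ev_sum] at h1
      simpa only [ev_smul] using h1
    · rintro ⟨μ, ⟨hμ, h1⟩, rfl⟩
      refine ⟨mem_coneOf.2 ⟨μ, hμ, rfl⟩, ?_⟩
      rw [ev_sum]
      simpa only [ev_smul] using h1
  rw [him]
  exact hAc.image hc

/-- comparison of homogeneous functions with a positive linear function -/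
theorem compare (v : Fin p → Fin n → ℤ) {l : Fin n → ℝ}
    (hl : ∀ i, 0 < ev l (toReal (v i))) {g : (Fin n → ℝ) → ℝ} (hg : Continuous g)
    (hs : ∀ (t : ℝ) (x : Fin n → ℝ), 0 ≤ t → g (t • x) = t * g x) :
    ∃ m : ℝ, (∀ w ∈ coneOf v, m * ev l w ≤ g w) ∧ (m = 1 ∨ ∃ w ∈ coneOf v, w ≠ 0 ∧ m = g w) := by
  have hg0 : g 0 = 0 := by
    have := hs 0 0 le_rfl
    simpa using this
  rcases Set.eq_empty_or_nonempty {w | w ∈ coneOf v ∧ ev l w = 1} with hK | hK
  · refine ⟨1, fun w hw => ?_, Or.inl rfl⟩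
    by_cases h0 : w = 0
    · rw [h0, hg0]; simp [ev]
    · exfalso
      have h1 := ev_pos hl hw h0
      have h2 : (ev l w)⁻¹ • w ∈ {w | w ∈ coneOf v ∧ ev l w = 1} := by
        refine ⟨coneOf_smul v hw (inv_nonneg.2 h1.le), ?_⟩
        rw [ev_smul, inv_mul_cancel₀ h1.ne']
      rw [hK] at h2
      exact h2
  · obtain ⟨w0, hw0, hmin⟩ := (slice_compact v hl).exists_isMinOn hK hg.continuousOn
    refine ⟨g w0, fun w hw => ?_, Or.inr ⟨w0, hw0.1, ?_, rfl⟩⟩
    · by_cases h0 : w = 0
      · rw [h0, hg0]; simp [ev]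
      · have h1 := ev_pos hl hw h0
        have h2 : (ev l w)⁻¹ • w ∈ {w | w ∈ coneOf v ∧ ev l w = 1} := by
          refine ⟨coneOf_smul v hw (inv_nonneg.2 h1.le), ?_⟩
          rw [ev_smul, inv_mul_cancel₀ h1.ne']
        have h3 : g w0 ≤ g ((ev l w)⁻¹ • w) := hmin h2
        rw [hs _ _ (inv_nonneg.2 h1.le)] at h3
        calc g w0 * ev l w ≤ (ev l w)⁻¹ * g w * ev l w := mul_le_mul_of_nonneg_right h3 h1.le
          _ = g w := by field_simp
    · intro h
      have := hw0.2
      rw [h] at this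
      simp [ev] at this

/-- termination: a lattice point can be raised to the tropical variety -/
theorem reach {v : Fin p → Fin n → ℤ} {G : Fin c → Finset (Fin n → ℤ)}
    (hG : ∀ j, (G j).Nonempty)
    (hx : ∀ j, ∀ m ∈ G j, ∃ i, low (G j) (toReal (v i)) < pair m (toReal (v i)))
    {l : Fin n → ℝ} (hl : ∀ i, 0 < ev l (toReal (v i)))
    {f : (Fin n → ℝ) → ℝ} (hf : Sub f)
    (hle : ∀ i, f (toReal (v i)) - lam G (toReal (v i)) ≤ 1) {ε : ℝ} (hε : 0 < ε)
    (hpos : ∀ w ∈ coneOf v, ε * ev l w ≤ f w - lam G w) (z : Fin n → ℤ)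
    (hz : toReal z ∈ interior (coneOf v)) :
    ∃ z' : Fin n → ℤ, toReal z' ∈ interior (coneOf v) ∧ Trop G (toReal z') ∧
      ev l (toReal z) ≤ ev l (toReal z') ∧
      f (toReal z') - lam G (toReal z') ≤ f (toReal z) - lam G (toReal z) := by
  obtain ⟨δ, hδ, hδl⟩ : ∃ δ : ℝ, 0 < δ ∧ ∀ i, δ ≤ ev l (toReal (v i)) := by
    rcases isEmpty_or_nonempty (Fin p) with h | h
    · exact ⟨1, one_pos, fun i => (h.false i).elim⟩
    · obtain ⟨i0, hi0⟩ := Finite.exists_min (fun i => ev l (toReal (v i)))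
      exact ⟨_, hl i0, hi0⟩
  have key : ∀ N : ℕ, ∀ z : Fin n → ℤ, toReal z ∈ interior (coneOf v) →
      f (toReal z) - lam G (toReal z) - ε * ev l (toReal z) ≤ N * (ε * δ) →
      ∃ z' : Fin n → ℤ, toReal z' ∈ interior (coneOf v) ∧ Trop G (toReal z') ∧
      ev l (toReal z) ≤ ev l (toReal z') ∧
      f (toReal z') - lam G (toReal z') ≤ f (toReal z) - lam G (toReal z) := by
    intro N
    induction N with
    | zero =>
      intro z hz hN
      by_cases ht : Trop G (toReal z)
      · exact ⟨z, hz, ht, le_rfl, le_rfl⟩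
      · exfalso
        obtain ⟨I, ⟨i, hi⟩, h⟩ := raise hG hx hf hle hz ht
        have h1 : toReal (z + ∑ i ∈ I, v i) ∈ coneOf v := by
          rw [toReal_add, toReal_sum]
          exact coneOf_add v (interior_subset hz) (sum_mem_cone v I)
        have h2 := hpos _ h1
        have h3 : ev l (toReal z) + δ ≤ ev l (toReal (z + ∑ i ∈ I, v i)) := by
          rw [toReal_add, toReal_sum, ev_add, ev_sum]
          have : ev l (toReal (v i)) ≤ ∑ i ∈ I, ev l (toReal (v i)) :=
            Finset.single_le_sum (f := fun i => ev l (toReal (v i))) (fun j _ => (hl j).le) hi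
          linarith [hδl i]
        have h4 := mul_le_mul_of_nonneg_left h3 hε.le
        have h5 := mul_pos hε hδ
        simp only [Nat.cast_zero, zero_mul] at hN
        nlinarith
    | succ N ih =>
      intro z hz hN
      by_cases ht : Trop G (toReal z)
      · exact ⟨z, hz, ht, le_rfl, le_rfl⟩
      · obtain ⟨I, ⟨i, hi⟩, h⟩ := raise hG hx hf hle hz ht
        have h1 : toReal (z + ∑ i ∈ I, v i) ∈ interior (coneOf v) := by
          rw [toReal_add, toReal_sum]
          exact interior_add v hz (sum_mem_cone v I)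
        have h3 : ev l (toReal z) + δ ≤ ev l (toReal (z + ∑ i ∈ I, v i)) := by
          rw [toReal_add, toReal_sum, ev_add, ev_sum]
          have : ev l (toReal (v i)) ≤ ∑ i ∈ I, ev l (toReal (v i)) :=
            Finset.single_le_sum (f := fun i => ev l (toReal (v i))) (fun j _ => (hl j).le) hi
          linarith [hδl i]
        have h4 := mul_le_mul_of_nonneg_left h3 hε.le
        obtain ⟨z', h5, h6, h7, h8⟩ := ih (z + ∑ i ∈ I, v i) h1 (by
          push_cast at hN
          nlinarith)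
        exact ⟨z', h5, h6, by linarith, h8.trans h⟩
  obtain ⟨N, hN⟩ := exists_nat_ge
    ((f (toReal z) - lam G (toReal z) - ε * ev l (toReal z)) / (ε * δ))
  exact key N z hz ((div_le_iff₀ (mul_pos hε hδ)).1 hN)

/-- an inequality between continuous homogeneous functions on the lattice points in the interior
holds on the whole cone -/
theorem dense {v : Fin p → Fin n → ℤ} (hfull : (interior (coneOf v)).Nonempty)
    {g : (Fin n → ℝ) → ℝ} (hg : Continuous g)
    (hs : ∀ (t : ℝ) (x : Fin n → ℝ), 0 ≤ t → g (t • x) = t * g x)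
    (h : ∀ z : Fin n → ℤ, toReal z ∈ interior (coneOf v) → 0 ≤ g (toReal z)) {w : Fin n → ℝ}
    (hw : w ∈ coneOf v) : 0 ≤ g w := by
  -- interior points
  have hint : ∀ w ∈ interior (coneOf v), 0 ≤ g w := by
    intro w hw
    set q : ℕ → Fin n → ℤ := fun k j => ⌊(k + 1 : ℝ) * w j⌋ with hq
    have h1 : Tendsto (fun k : ℕ => ((k + 1 : ℝ)⁻¹) • (toReal (q k) : Fin n → ℝ)) atTop (𝓝 w) := by
      rw [tendsto_pi_nhds]
      intro j
      have h2 : Tendsto (fun k : ℕ => ((k + 1 : ℝ)⁻¹)) atTop (𝓝 0) :=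
        (tendsto_inv_atTop_zero.comp (tendsto_atTop_add_const_right _ _ tendsto_natCast_atTop_atTop))
      have h3 : Tendsto (fun k : ℕ => w j - ((k + 1 : ℝ)⁻¹)) atTop (𝓝 (w j)) := by
        have := (tendsto_const_nhds (x := w j)).sub h2
        simpa using this
      refine tendsto_of_tendsto_of_tendsto_of_le_of_le h3 tendsto_const_nhds (fun k => ?_)
        (fun k => ?_)
      · have hk : (0 : ℝ) < k + 1 := by positivity
        simp only [Pi.smul_apply, smul_eq_mul, toReal, hq]
        have h4 := Int.sub_one_lt_floor ((k + 1 : ℝ) * w j)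
        rw [← sub_nonneg]
        have h5 : (k + 1 : ℝ)⁻¹ * (⌊(k + 1 : ℝ) * w j⌋ : ℝ) - (w j - (k + 1 : ℝ)⁻¹) =
            (k + 1 : ℝ)⁻¹ * ((⌊(k + 1 : ℝ) * w j⌋ : ℝ) - ((k + 1 : ℝ) * w j - 1)) := by
          field_simp
        rw [h5]
        exact mul_nonneg (inv_nonneg.2 hk.le) (by linarith)
      · have hk : (0 : ℝ) < k + 1 := by positivity
        simp only [Pi.smul_apply, smul_eq_mul, toReal, hq]
        have h4 := Int.floor_le ((k + 1 : ℝ) * w j)
        rw [inv_mul_le_iff₀ hk]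
        exact h4
    have h2 : ∀ᶠ k : ℕ in atTop, 0 ≤ g (((k + 1 : ℝ)⁻¹) • (toReal (q k) : Fin n → ℝ)) := by
      filter_upwards [h1 (isOpen_interior.mem_nhds hw)] with k hk
      have hk0 : (0 : ℝ) < k + 1 := by positivity
      have h3 : toReal (q k) ∈ interior (coneOf v) := by
        have := interior_smul v hk hk0
        rwa [smul_smul, mul_inv_cancel₀ hk0.ne', one_smul] at this
      rw [hs _ _ (inv_nonneg.2 hk0.le)]
      exact mul_nonneg (inv_nonneg.2 hk0.le) (h _ h3)
    exact ge_of_tendsto ((hg.tendsto w).comp h1) h2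
  obtain ⟨u, hu⟩ := hfull
  have h1 : Tendsto (fun k : ℕ => w + ((k + 1 : ℝ)⁻¹) • u) atTop (𝓝 w) := by
    have h2 : Tendsto (fun k : ℕ => ((k + 1 : ℝ)⁻¹)) atTop (𝓝 0) :=
      (tendsto_inv_atTop_zero.comp (tendsto_atTop_add_const_right _ _ tendsto_natCast_atTop_atTop))
    have := (tendsto_const_nhds (x := w)).add (h2.smul_const u)
    simpa using this
  refine ge_of_tendsto ((hg.tendsto w).comp h1) (Eventually.of_forall fun k => ?_)
  have hk0 : (0 : ℝ) < k + 1 := by positivity
  apply hint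
  change w + ((k + 1 : ℝ)⁻¹) • u ∈ interior (coneOf v)
  rw [add_comm]
  exact interior_add v (interior_smul v hu (inv_pos.2 hk0)) hw

/-- **Precise inversion of adjunction**, for log canonical pairs on nondegenerate complete
intersections of klt type -/
theorem pia {v : Fin p → Fin n → ℤ} {G : Fin c → Finset (Fin n → ℤ)}
    (hfull : (interior (coneOf v)).Nonempty)
    (hG : ∀ j, (G j).Nonempty)
    (hx : ∀ j, ∀ m ∈ G j, ∃ i, low (G j) (toReal (v i)) < pair m (toReal (v i)))
    {l : Fin n → ℝ} (hl : ∀ i, 0 < ev l (toReal (v i)))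
    {f f' : (Fin n → ℝ) → ℝ} (hf : Sub f) (hf' : Sub f')
    (hle : ∀ i, f (toReal (v i)) - lam G (toReal (v i)) ≤ 1)
    (hle' : ∀ i, f' (toReal (v i)) - lam G (toReal (v i)) ≤ 1)
    (hklt : ∀ w ∈ coneOf v, w ≠ 0 → 0 < f' w - lam G w) {a : ℝ} (ha : 0 ≤ a)
    (hlc : ∀ z : Fin n → ℤ, toReal z ∈ interior (coneOf v) → Trop G (toReal z) →
      a ≤ f (toReal z) - lam G (toReal z)) :
    (∀ z : Fin n → ℤ, toReal z ∈ interior (coneOf v) → a ≤ f (toReal z) - lam G (toReal z)) ∧
      ∀ w ∈ coneOf v, 0 ≤ f w - lam G w := by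
  have hlam := lam_cont hG
  have hlams := lam_smul hG
  -- positivity of the klt companion
  obtain ⟨ε, h1, h2⟩ := compare v hl (g := fun w => f' w - lam G w) (hf'.cont.sub hlam)
    (fun t x ht => by rw [hf'.smul t x ht, hlams t x ht]; ring)
  have hε : 0 < ε := by
    rcases h2 with h2 | ⟨w, hw, hw0, h2⟩
    · rw [h2]; exact one_pos
    · rw [h2]; exact hklt w hw hw0
  -- lower bound for the difference
  obtain ⟨m, h3, -⟩ := compare v hl (g := fun w => f w - f' w) (hf.cont.sub hf'.cont)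
    (fun t x ht => by rw [hf.smul t x ht, hf'.smul t x ht]; ring)
  set C : ℝ := |m| + 1 with hC
  have hC0 : 0 < C := by positivity
  have h4 : ∀ w ∈ coneOf v, -C * ev l w ≤ f w - f' w := by
    intro w hw
    refine le_trans ?_ (h3 w hw)
    apply mul_le_mul_of_nonneg_right _ (ev_nonneg hl hw)
    have := neg_abs_le m
    linarith
  -- transfer
  have transfer : ∀ θ : ℝ, 0 < θ → θ ≤ 1 → (∃ η : ℝ, 0 < η ∧ ∀ w ∈ coneOf v,
      η * ev l w ≤ ((1 - θ) * f w + θ * f' w) - lam G w) →
      (∀ z : Fin n → ℤ, toReal z ∈ interior (coneOf v) →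
        (1 - θ) * a + θ * ε * ev l (toReal z) ≤
          ((1 - θ) * f (toReal z) + θ * f' (toReal z)) - lam G (toReal z)) ∧
      ∀ w ∈ coneOf v, θ * ε * ev l w ≤ ((1 - θ) * f w + θ * f' w) - lam G w := by
    intro θ hθ hθ1 ⟨η, hη, hη1⟩
    have hS := hf.combo hf' hθ.le hθ1
    have hle2 : ∀ i, ((1 - θ) * f (toReal (v i)) + θ * f' (toReal (v i))) -
        lam G (toReal (v i)) ≤ 1 := by
      intro i
      have h5 := mul_le_mul_of_nonneg_left (hle i) (sub_nonneg.2 hθ1)
      have h6 := mul_le_mul_of_nonneg_left (hle' i) hθ.le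
      nlinarith
    have hmain : ∀ z : Fin n → ℤ, toReal z ∈ interior (coneOf v) →
        (1 - θ) * a + θ * ε * ev l (toReal z) ≤
          ((1 - θ) * f (toReal z) + θ * f' (toReal z)) - lam G (toReal z) := by
      intro z hz
      obtain ⟨z', hz', ht, hll, hr⟩ := reach hG hx hl hS hle2 hη hη1 z hz
      refine le_trans ?_ hr
      have h5 := mul_le_mul_of_nonneg_left (hlc z' hz' ht) (sub_nonneg.2 hθ1)
      have h6 := mul_le_mul_of_nonneg_left (h1 _ (interior_subset hz')) hθ.le
      have h7 := mul_le_mul_of_nonneg_left hll (mul_pos hθ hε).le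
      nlinarith
    refine ⟨hmain, fun w hw => ?_⟩
    have h5 := dense (v := v) hfull
      (g := fun w => (((1 - θ) * f w + θ * f' w) - lam G w) - θ * ε * ev l w)
      ((((continuous_const.mul hf.cont).add (continuous_const.mul hf'.cont)).sub hlam).sub
        (continuous_const.mul (ev_cont l)))
      (fun t x ht => by rw [hf.smul t x ht, hf'.smul t x ht, hlams t x ht, ev_smul]; ring)
      (fun z hz => by
        have h6 := hmain z hz
        have h7 : 0 ≤ (1 - θ) * a := mul_nonneg (sub_nonneg.2 hθ1) ha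
        linarith) hw
    linarith
  -- the geometric progression
  set κ : ℝ := ε / (2 * (C + ε)) with hκ
  have hκ0 : 0 < κ := by positivity
  have hκ1 : κ < 1 := by
    rw [hκ, div_lt_one (by positivity)]
    linarith
  have hκC : κ * C ≤ ε / 2 := by
    rw [hκ, div_mul_eq_mul_div, div_le_div_iff₀ (by positivity) (by norm_num)]
    nlinarith [mul_pos hε hε]
  have hstep : ∀ k : ℕ, ∃ η : ℝ, 0 < η ∧ ∀ w ∈ coneOf v,
      η * ev l w ≤ ((1 - (1 - κ) ^ k) * f w + (1 - κ) ^ k * f' w) - lam G w := by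
    intro k
    induction k with
    | zero =>
      refine ⟨ε, hε, fun w hw => ?_⟩
      have := h1 w hw
      simp only [pow_zero, sub_self, zero_mul, one_mul, zero_add]
      exact this
    | succ k ih =>
      set θ := (1 - κ) ^ k with hθ
      have hθ0 : 0 < θ := pow_pos (by linarith) k
      have hθ1 : θ ≤ 1 := pow_le_one₀ (by linarith) (by linarith)
      obtain ⟨-, h5⟩ := transfer θ hθ0 hθ1 ih
      refine ⟨θ * (ε / 2), by positivity, fun w hw => ?_⟩
      have h6 := h5 w hw
      have h7 := h4 w hw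
      have h8 := ev_nonneg hl hw
      have h9 : (1 - κ) ^ (k + 1) = θ - κ * θ := by rw [pow_succ, hθ]; ring
      rw [h9]
      have h10 : κ * θ * (-C * ev l w) ≤ κ * θ * (f w - f' w) :=
        mul_le_mul_of_nonneg_left h7 (mul_pos hκ0 hθ0).le
      have h11 : θ * (κ * C) * ev l w ≤ θ * (ε / 2) * ev l w :=
        mul_le_mul_of_nonneg_right (mul_le_mul_of_nonneg_left hκC hθ0.le) h8
      nlinarith
  have hlim : Tendsto (fun k : ℕ => (1 - κ) ^ k) atTop (𝓝 0) :=
    tendsto_pow_atTop_nhds_zero_of_lt_one (by linarith) (by linarith)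
  have htr : ∀ k : ℕ, _ := fun k => transfer ((1 - κ) ^ k) (pow_pos (by linarith) k)
    (pow_le_one₀ (by linarith) (by linarith)) (hstep k)
  constructor
  · intro z hz
    have h5 : Tendsto (fun k : ℕ => (1 - (1 - κ) ^ k) * a +
        (1 - κ) ^ k * ε * ev l (toReal z)) atTop (𝓝 a) := by
      have := ((tendsto_const_nhds (x := (1 : ℝ))).sub hlim).mul_const a |>.add
        ((hlim.mul_const ε).mul_const (ev l (toReal z)))
      simpa using this
    have h6 : Tendsto (fun k : ℕ => ((1 - (1 - κ) ^ k) * f (toReal z) +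
        (1 - κ) ^ k * f' (toReal z)) - lam G (toReal z)) atTop
        (𝓝 (f (toReal z) - lam G (toReal z))) := by
      have := (((tendsto_const_nhds (x := (1 : ℝ))).sub hlim).mul_const (f (toReal z)) |>.add
        (hlim.mul_const (f' (toReal z)))).sub_const (lam G (toReal z))
      simpa using this
    exact le_of_tendsto_of_tendsto' h5 h6 fun k => (htr k).1 z hz
  · intro w hw
    have h5 : Tendsto (fun k : ℕ => (1 - κ) ^ k * ε * ev l w) atTop (𝓝 0) := by
      have := (hlim.mul_const ε).mul_const (ev l w)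
      simpa using this
    have h6 : Tendsto (fun k : ℕ => ((1 - (1 - κ) ^ k) * f w +
        (1 - κ) ^ k * f' w) - lam G w) atTop (𝓝 (f w - lam G w)) := by
      have := (((tendsto_const_nhds (x := (1 : ℝ))).sub hlim).mul_const (f w) |>.add
        (hlim.mul_const (f' w))).sub_const (lam G w)
      simpa using this
    exact le_of_tendsto_of_tendsto' h5 h6 fun k => (htr k).2 w hw

end Pool.Agent.helper10.NDH
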