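import Pool.Agent.helper10.NDH.Limit
import Pool.Agent.helper20.TAU.Toric

/-!
# The ascending chain condition on nondegenerate complete intersections
-/

noncomputable section

namespace Pool.Agent.helper10.NDH

open Finset Pool.Agent.helper22.ACC

variable {n c r : ℕ}

theorem closure_nn {Γ : Set ℝ} (hΓ : ∀ x ∈ Γ, 0 ≤ x) {x : ℝ} (hx : x ∈ AddSubmonoid.closure Γ) :
    0 ≤ x := by
  induction hx using AddSubmonoid.closure_induction with
  | mem x hx => exact hΓ x hx
  | zero => exact le_rfl
  | add x y _ _ hx hy => exact add_nonneg hx hy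

/-- linear functions minus nonnegative combinations of functions `low` are sublinear -/
theorem sub_of (psi : Fin n → ℝ) (L : List (ℝ × Finset (Fin n → ℤ)))
    (hL : ∀ a ∈ L, 0 ≤ a.1 ∧ a.2.Nonempty) :
    Sub fun w : Fin n → ℝ => ∑ i, psi i * w i - (L.map fun a => a.1 * low a.2 w).sum := by
  induction L with
  | nil =>
    refine ⟨by simp only [List.map_nil, List.sum_nil, sub_zero]; fun_prop, fun x y => ?_,
      fun t x _ => ?_⟩
    · simp [mul_add, Finset.sum_add_distrib]
    · simp only [List.map_nil, List.sum_nil, sub_zero, Pi.smul_apply, smul_eq_mul, Finset.mul_sum]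
      exact Finset.sum_congr rfl fun i _ => by ring
  | cons a L ih =>
    have h1 := ih fun b hb => hL b (List.mem_cons_of_mem _ hb)
    have h2 := hL a List.mem_cons_self
    have e : (fun w : Fin n → ℝ => ∑ i, psi i * w i -
        ((a :: L).map fun a => a.1 * low a.2 w).sum) =
        fun w => (∑ i, psi i * w i - (L.map fun a => a.1 * low a.2 w).sum) - a.1 * low a.2 w := by
      funext w
      simp only [List.map_cons, List.sum_cons]
      ring
    rw [e]
    refine ⟨h1.cont.sub (continuous_const.mul (low_cont h2.2)), fun x y => ?_, fun t x ht => ?_⟩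
    · have h3 := h1.add x y
      have h4 := mul_le_mul_of_nonneg_left (low_add h2.2 x y) h2.1
      linarith
    · have h3 := h1.smul t x ht
      rw [h3, low_smul h2.2 t x ht]
      ring

/-- the sublinear function of a pair with divisors -/
theorem sub_comb (t : Data n r) (hp : ∀ a ∈ t.parts, 0 ≤ a.1 ∧ a.2.Nonempty)
    (hd : ∀ j, ∀ a ∈ t.dparts j, 0 ≤ a.1 ∧ a.2.Nonempty) (s : Fin r → ℝ) (hs : ∀ j, 0 ≤ s j) :
    Sub fun w : Fin n → ℝ => (∑ i, t.psi i * w i - (t.parts.map fun a => a.1 * low a.2 w).sum) -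
      ∑ j, s j * order t j w := by
  have h1 := sub_of t.psi t.parts hp
  have h2 : ∀ j, Sub fun w : Fin n → ℝ => - order t j w := by
    intro j
    have := sub_of (fun i => - t.phi j i) (t.dparts j) (hd j)
    have e : (fun w : Fin n → ℝ => - order t j w) = fun w => ∑ i, (- t.phi j i) * w i -
        ((t.dparts j).map fun a => a.1 * low a.2 w).sum := by
      funext w
      simp only [order, neg_mul, Finset.sum_neg_distrib]
      ring
    rw [e]
    exact this
  have hcont : ∀ j, Continuous fun w : Fin n → ℝ => order t j w := fun j =>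
    (h2 j).cont.neg.congr fun w => by simp
  refine ⟨h1.cont.sub (continuous_finsetSum _ fun j _ => continuous_const.mul (hcont j)),
    fun x y => ?_, fun a x ha => ?_⟩
  · have h3 := h1.add x y
    have h4 : ∑ j, s j * order t j x + ∑ j, s j * order t j y ≤
        ∑ j, s j * order t j (x + y) := by
      rw [← Finset.sum_add_distrib]
      refine Finset.sum_le_sum fun j _ => ?_
      rw [← mul_add]
      refine mul_le_mul_of_nonneg_left ?_ (hs j)
      have := (h2 j).add x y
      linarith
    linarith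
  · have h3 := h1.smul a x ha
    have h4 : ∑ j, s j * order t j (a • x) = a * ∑ j, s j * order t j x := by
      rw [Finset.mul_sum]
      refine Finset.sum_congr rfl fun j _ => ?_
      have := (h2 j).smul a x ha
      have h5 : order t j (a • x) = a * order t j x := by linarith
      rw [h5]
      ring
    rw [h4, h3]
    ring

/-- the ambient toric pair -/
def amb (t : Data n r) : Pool.Agent.helper20.TAT.Data (Fin n) r where
  p := t.p
  v := t.v
  psi := t.psi
  parts := t.parts ++ List.ofFn fun j => ((1 : ℝ), t.G j)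
  phi := t.phi
  dparts := t.dparts

theorem amb_logDisc (t : Data n r) (w : Fin n → ℝ) :
    Pool.Agent.helper22.ARR.logDisc (amb t).toGenPair w = disc t.G t.psi t.parts w := by
  have h : ((t.parts ++ List.ofFn fun j => ((1 : ℝ), t.G j)).map fun a => a.1 * low a.2 w).sum =
      (t.parts.map fun a => a.1 * low a.2 w).sum + ∑ j, low (t.G j) w := by
    rw [List.map_append, List.sum_append, List.map_ofFn, List.sum_ofFn]
    simp
  change ∑ i, t.psi i * w i - ((t.parts ++ List.ofFn fun j => ((1 : ℝ), t.G j)).map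
    fun a => a.1 * low a.2 w).sum = _
  rw [h, disc]
  ring

theorem amb_order (t : Data n r) (j : Fin r) (w : Fin n → ℝ) :
    Pool.Agent.helper20.TAT.order (amb t) j w = order t j w := rfl

theorem amb_coef {Γ : Set ℝ} {t : Data n r} (ht : HasCoeff Γ t) :
    Pool.Agent.helper20.TAT.CoefC (insert 1 Γ) 1 (amb t) where
  boundary := by
    intro i
    have h := AddSubmonoid.closure_mono (Set.subset_insert 1 Γ) (ht.boundary i)
    have e := amb_logDisc t (toReal (t.v i))
    rw [← e] at h
    exact h
  parts := by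
    intro a ha
    rcases List.mem_append.1 ha with ha | ha
    · exact ⟨Set.mem_insert_of_mem _ (ht.parts a ha).1, (ht.parts a ha).2⟩
    · obtain ⟨j, rfl⟩ := (List.mem_ofFn' _ _).1 ha
      exact ⟨Set.mem_insert _ _, ht.nonempty j⟩
  divisors := by
    intro j i
    exact AddSubmonoid.closure_mono (Set.subset_insert 1 Γ) (ht.divisors j i)
  dparts := by
    intro j a ha
    exact ⟨Set.mem_insert_of_mem _ (ht.dparts j a ha).1, (ht.dparts j a ha).2⟩

/-- inversion of adjunction for threshold polytopes -/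
theorem thresholds_sub {Γ : Set ℝ} (hΓ : ∀ x ∈ Γ, 0 ≤ x) {t : Data n r} (ht : HasCoeff Γ t)
    {a : ℝ} (ha : 0 ≤ a) {s : Fin r → ℝ} (hs : s ∈ thresholds a t) :
    s ∈ Pool.Agent.helper20.TAT.thr a (amb t) := by
  obtain ⟨l, hl⟩ := ht.pointed
  obtain ⟨psi', parts', hp', hle', hklt⟩ := ht.kltType
  have hp : ∀ a ∈ t.parts, 0 ≤ a.1 ∧ a.2.Nonempty :=
    fun a ha => ⟨hΓ _ (ht.parts a ha).1, (ht.parts a ha).2⟩
  have hd : ∀ j, ∀ a ∈ t.dparts j, 0 ≤ a.1 ∧ a.2.Nonempty :=
    fun j a ha => ⟨hΓ _ (ht.dparts j a ha).1, (ht.dparts j a ha).2⟩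
  have hf := sub_comb t hp hd s hs.1
  have hf' := sub_of psi' parts' hp'
  have key := pia (v := t.v) (G := t.G) (l := l) ht.full ht.nonempty ht.fixedPoint
    (fun i => hl i) hf hf' (fun i => by
      have h1 := closure_nn hΓ (ht.boundary i)
      have h2 : 0 ≤ ∑ j, s j * order t j (toReal (t.v i)) :=
        Finset.sum_nonneg fun j _ => mul_nonneg (hs.1 j) (closure_nn hΓ (ht.divisors j i))
      simp only [disc] at h1
      simp only [lam]
      linarith) (fun i => hle' i) (fun w hw hw0 => hklt w hw hw0) ha (fun z hz hz2 => by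
      have h1 := hs.2 z hz hz2
      simp only [disc] at h1
      simp only [lam]
      linarith)
  refine ⟨hs.1, fun z hz => ?_⟩
  have h1 : toReal z ∈ interior (coneOf t.v) :=
    Pool.Agent.helper22.ARR.interior_of_rint t.v ht.full hz
  have h2 := key.1 z h1
  rw [amb_logDisc]
  change a ≤ disc t.G t.psi t.parts (toReal z) - ∑ j, s j * order t j (toReal z)
  simp only [lam] at h2
  simp only [disc]
  linarith

/-- **The main theorem** -/
theorem main (n r : ℕ) (Γ : Set ℝ) (hΓ : ∀ x ∈ Γ, 0 ≤ x)
    (hdcc : ¬ ∃ f : ℕ → ℝ, StrictAnti f ∧ ∀ k, f k ∈ Γ) (t : ℕ → Data n r)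
    (ht : ∀ k, HasCoeff Γ (t k)) :
    ∃ k, ∀ a : ℝ, 0 ≤ a → ∀ s : Fin r → ℝ, (∀ l, k < l → s ∈ thresholds a (t l)) →
      s ∈ thresholds a (t k) := by
  have hΓ' : ∀ x ∈ insert (1 : ℝ) Γ, 0 ≤ x := by
    intro x hx
    rcases Set.mem_insert_iff.1 hx with rfl | hx
    · exact zero_le_one
    · exact hΓ x hx
  have hdcc' : ¬ ∃ f : ℕ → ℝ, StrictAnti f ∧ ∀ k, f k ∈ insert (1 : ℝ) Γ := by
    rintro ⟨f, hf, hmem⟩
    apply hdcc
    by_cases h : ∃ k, f k = 1
    · obtain ⟨k, hk⟩ := h
      refine ⟨fun j => f (k + 1 + j), fun i j hij => hf (by omega), fun j => ?_⟩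
      rcases Set.mem_insert_iff.1 (hmem (k + 1 + j)) with h1 | h1
      · exfalso
        have := hf (show k < k + 1 + j by omega)
        rw [h1, hk] at this
        exact lt_irrefl _ this
      · exact h1
    · push Not at h
      exact ⟨f, hf, fun k => (Set.mem_insert_iff.1 (hmem k)).resolve_left (h k)⟩
  obtain ⟨k, hk⟩ := Pool.Agent.helper20.TAU.toricE hΓ' one_pos hdcc' (fun k => amb (t k))
    (fun k => amb_coef (ht k))
  refine ⟨k, fun a ha s hs => ?_⟩
  have h1 := hk a ha s fun l hl => thresholds_sub hΓ (ht l) ha (hs l hl)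
  refine ⟨h1.1, fun z hz _ => ?_⟩
  have h2 := h1.2 z (Pool.Agent.helper22.ARR.rint_of_interior _ hz)
  rw [amb_logDisc] at h2
  exact h2

end Pool.Agent.helper10.NDH
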