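import Pool.Agent.helper10.NDH.Hit

/-!
# Precise inversion of adjunction for nondegenerate complete intersections

For lattice points `z` in the interior of the cone which are not in the tropical variety, `z` can be
raised by a sum of generators of the cone without increasing the log discrepancy. This gives that
the infimum of the log discrepancies over the tropical variety is the one over all lattice points
in the interior of the cone, if the complete intersection is of klt type.
-/

noncomputable section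

namespace Pool.Agent.helper10.NDH

open Finset Pool.Agent.helper22.ACC Filter Topology

variable {n c p : ℕ}

/-- continuous sublinear functions -/
structure Sub (f : (Fin n → ℝ) → ℝ) : Prop where
  cont : Continuous f
  add : ∀ x y, f (x + y) ≤ f x + f y
  smul : ∀ (t : ℝ) (x : Fin n → ℝ), 0 ≤ t → f (t • x) = t * f x

theorem Sub.zero {f : (Fin n → ℝ) → ℝ} (hf : Sub f) : f 0 = 0 := by
  have := hf.smul 0 0 le_rfl
  simpa using this

theorem Sub.sum {f : (Fin n → ℝ) → ℝ} (hf : Sub f) {ι : Type*} (s : Finset ι)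
    (x : Fin n → ℝ) (y : ι → Fin n → ℝ) : f (x + ∑ i ∈ s, y i) ≤ f x + ∑ i ∈ s, f (y i) := by
  classical
  induction s using Finset.induction_on generalizing x with
  | empty => simp
  | insert i s hi ih =>
    rw [Finset.sum_insert hi, Finset.sum_insert hi, ← add_assoc]
    refine (ih _).trans ?_
    have := hf.add x (y i)
    linarith

theorem Sub.combo {f g : (Fin n → ℝ) → ℝ} (hf : Sub f) (hg : Sub g) {θ : ℝ} (h0 : 0 ≤ θ)
    (h1 : θ ≤ 1) : Sub fun w => (1 - θ) * f w + θ * g w where
  cont := (continuous_const.mul hf.cont).add (continuous_const.mul hg.cont)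
  add x y := by
    have h2 := mul_le_mul_of_nonneg_left (hf.add x y) (sub_nonneg.2 h1)
    have h3 := mul_le_mul_of_nonneg_left (hg.add x y) h0
    nlinarith
  smul t x ht := by
    rw [hf.smul t x ht, hg.smul t x ht]; ring

theorem pair_add (m : Fin n → ℤ) (x y : Fin n → ℝ) : pair m (x + y) = pair m x + pair m y := by
  simp [pair, mul_add, Finset.sum_add_distrib]

theorem pair_smul (m : Fin n → ℤ) (t : ℝ) (x : Fin n → ℝ) : pair m (t • x) = t * pair m x := by
  simp only [pair, Pi.smul_apply, smul_eq_mul, Finset.mul_sum]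
  exact Finset.sum_congr rfl fun i _ => by ring

theorem pair_cont (m : Fin n → ℤ) : Continuous (pair m : (Fin n → ℝ) → ℝ) := by
  unfold pair
  fun_prop

theorem low_add {S : Finset (Fin n → ℤ)} (hS : S.Nonempty) (x y : Fin n → ℝ) :
    low S x + low S y ≤ low S (x + y) := by
  obtain ⟨m, hm, h⟩ := exists_low hS (x + y)
  rw [← h, pair_add]
  exact add_le_add (low_le hm x) (low_le hm y)

theorem low_smul {S : Finset (Fin n → ℤ)} (hS : S.Nonempty) (t : ℝ) (x : Fin n → ℝ) (ht : 0 ≤ t) :
    low S (t • x) = t * low S x := by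
  apply le_antisymm
  · obtain ⟨m, hm, h⟩ := exists_low hS x
    rw [← h, ← pair_smul]
    exact low_le hm _
  · obtain ⟨m, hm, h⟩ := exists_low hS (t • x)
    rw [← h, pair_smul]
    exact mul_le_mul_of_nonneg_left (low_le hm x) ht

theorem low_cont {S : Finset (Fin n → ℤ)} (hS : S.Nonempty) :
    Continuous (low S : (Fin n → ℝ) → ℝ) := by
  have h : (low S : (Fin n → ℝ) → ℝ) = fun w => S.inf' hS fun m => pair m w := by
    funext w
    rw [Finset.inf'_eq_csInf_image]
    rfl
  rw [h]
  exact Continuous.finset_inf'_apply hS fun m _ => pair_cont m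

/-- the sum of the orders of the equations -/
def lam (G : Fin c → Finset (Fin n → ℤ)) (w : Fin n → ℝ) : ℝ := ∑ j, low (G j) w

theorem lam_cont {G : Fin c → Finset (Fin n → ℤ)} (hG : ∀ j, (G j).Nonempty) :
    Continuous (lam G) := by
  unfold lam
  exact continuous_finsetSum _ fun j _ => low_cont (hG j)

theorem lam_smul {G : Fin c → Finset (Fin n → ℤ)} (hG : ∀ j, (G j).Nonempty) (t : ℝ)
    (x : Fin n → ℝ) (ht : 0 ≤ t) : lam G (t • x) = t * lam G x := by
  unfold lam
  rw [Finset.mul_sum]
  exact Finset.sum_congr rfl fun j _ => low_smul (hG j) t x ht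

theorem toReal_sum {ι : Type*} (s : Finset ι) (y : ι → Fin n → ℤ) :
    (toReal (∑ i ∈ s, y i) : Fin n → ℝ) = ∑ i ∈ s, toReal (y i) := by
  classical
  induction s using Finset.induction_on with
  | empty => funext k; simp [toReal]
  | insert i s hi ih => rw [Finset.sum_insert hi, Finset.sum_insert hi, toReal_add, ih]

theorem mem_coneOf {v : Fin p → Fin n → ℤ} {w : Fin n → ℝ} :
    w ∈ coneOf v ↔ ∃ μ : Fin p → ℝ, (∀ i, 0 ≤ μ i) ∧ w = ∑ i, μ i • toReal (v i) := by
  constructor
  · rintro ⟨μ, hμ, h⟩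
    refine ⟨μ, hμ, ?_⟩
    funext j
    rw [h j]
    simp [toReal]
  · rintro ⟨μ, hμ, h⟩
    refine ⟨μ, hμ, fun j => ?_⟩
    rw [h]
    simp [toReal]

theorem gen_mem (v : Fin p → Fin n → ℤ) (i : Fin p) : toReal (v i) ∈ coneOf v := by
  classical
  rw [mem_coneOf]
  refine ⟨Pi.single i 1, fun k => ?_, ?_⟩
  · by_cases h : k = i
    · rw [h, Pi.single_eq_same]; exact zero_le_one
    · rw [Pi.single_eq_of_ne h]
  · rw [Finset.sum_eq_single i]
    · rw [Pi.single_eq_same, one_smul]
    · intro k _ hk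
      rw [Pi.single_eq_of_ne hk, zero_smul]
    · intro h; exact absurd (mem_univ _) h

theorem zero_mem_cone (v : Fin p → Fin n → ℤ) : (0 : Fin n → ℝ) ∈ coneOf v := by
  rw [mem_coneOf]
  exact ⟨0, fun _ => le_rfl, by simp⟩

theorem sum_mem_cone (v : Fin p → Fin n → ℤ) (I : Finset (Fin p)) :
    ∑ i ∈ I, toReal (v i) ∈ coneOf v := by
  classical
  induction I using Finset.induction_on with
  | empty => simpa using zero_mem_cone v
  | insert i s hi ih => rw [Finset.sum_insert hi]; exact coneOf_add v (gen_mem v i) ih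

/-- interior points are strictly positive combinations -/
theorem interior_pos {v : Fin p → Fin n → ℤ} {w : Fin n → ℝ} (hw : w ∈ interior (coneOf v)) :
    ∃ a : Fin p → ℝ, (∀ i, 0 < a i) ∧ w = ∑ i, a i • toReal (v i) := by
  have h1 : Tendsto (fun t : ℝ => w - t • ∑ i, (toReal (v i) : Fin n → ℝ)) (𝓝 0) (𝓝 w) := by
    have : Continuous fun t : ℝ => w - t • ∑ i, (toReal (v i) : Fin n → ℝ) := by fun_prop
    have h := this.tendsto 0
    simpa using h
  have h2 : ∀ᶠ t : ℝ in 𝓝 0, w - t • ∑ i, (toReal (v i) : Fin n → ℝ) ∈ interior (coneOf v) :=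
    h1 (isOpen_interior.mem_nhds hw)
  obtain ⟨t, ht, ht0⟩ := ((h2.filter_mono nhdsWithin_le_nhds).and
    (self_mem_nhdsWithin : Set.Ioi (0 : ℝ) ∈ 𝓝[>] (0 : ℝ))).exists
  obtain ⟨μ, hμ, h⟩ := mem_coneOf.1 (interior_subset ht)
  refine ⟨fun i => μ i + t, fun i => add_pos_of_nonneg_of_pos (hμ i) ht0, ?_⟩
  simp only [add_smul, Finset.sum_add_distrib, ← Finset.smul_sum]
  rw [← h]
  abel

/-- the estimate for one equation -/
theorem low_raise {S : Finset (Fin n → ℤ)} (hS : S.Nonempty) (v : Fin p → Fin n → ℤ)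
    (z : Fin n → ℤ) (I : Finset (Fin p))
    (h : ∀ m ∈ face S (toReal z), ∃ i ∈ I, low S (toReal (v i)) < pair m (toReal (v i))) :
    low S (toReal z) + ∑ i ∈ I, low S (toReal (v i)) + 1 ≤
      low S (toReal z + ∑ i ∈ I, toReal (v i)) := by
  obtain ⟨m, hm, hmin⟩ := exists_low hS (toReal z + ∑ i ∈ I, toReal (v i))
  rw [← hmin]
  have hsum : pair m (toReal z + ∑ i ∈ I, toReal (v i)) =
      pair m (toReal z) + ∑ i ∈ I, pair m (toReal (v i)) := by
    simp only [pair_eq, dot_add, LinearMap.add_apply]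
    congr 1
    have := dot_sum I (fun _ => (1 : ℝ)) fun i => (toReal (v i) : Fin n → ℝ)
    simp only [one_smul] at this
    rw [this, LinearMap.sum_apply]
  rw [hsum]
  by_cases hf : m ∈ face S (toReal z)
  · obtain ⟨i, hi, hlt⟩ := h m hf
    have h1 : low S (toReal (v i)) + 1 ≤ pair m (toReal (v i)) := by
      rw [low_eq hS, pair_toReal] at hlt ⊢
      exact_mod_cast hlt
    have h2 : ∑ i ∈ I, low S (toReal (v i)) + 1 ≤ ∑ i ∈ I, pair m (toReal (v i)) := by
      classical
      rw [← Finset.add_sum_erase I _ hi, ← Finset.add_sum_erase I _ hi]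
      have h3 : ∑ x ∈ I.erase i, low S (toReal (v x)) ≤ ∑ x ∈ I.erase i, pair m (toReal (v x)) :=
        Finset.sum_le_sum fun x _ => low_le hm _
      linarith
    rw [(mem_face.1 hf).2]
    linarith
  · have hlt : low S (toReal z) < pair m (toReal z) :=
      lt_of_le_of_ne (low_le hm _) fun h0 => hf (mem_face.2 ⟨hm, h0.symm⟩)
    have h1 : low S (toReal z) + 1 ≤ pair m (toReal z) := by
      rw [low_eq hS, pair_toReal] at hlt ⊢
      exact_mod_cast hlt
    have h3 : ∑ x ∈ I, low S (toReal (v x)) ≤ ∑ x ∈ I, pair m (toReal (v x)) :=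
      Finset.sum_le_sum fun x _ => low_le hm _
    linarith

theorem low_raise' {S : Finset (Fin n → ℤ)} (hS : S.Nonempty) (v : Fin p → Fin n → ℤ)
    (x : Fin n → ℝ) (I : Finset (Fin p)) :
    low S x + ∑ i ∈ I, low S (toReal (v i)) ≤ low S (x + ∑ i ∈ I, toReal (v i)) := by
  classical
  induction I using Finset.induction_on generalizing x with
  | empty => simp
  | insert i s hi ih =>
    rw [Finset.sum_insert hi, Finset.sum_insert hi, ← add_assoc x]
    refine le_trans ?_ (ih _)
    have := low_add hS x (toReal (v i))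
    linarith

/-- **raising**: a lattice point outside the tropical variety can be raised -/
theorem raise {v : Fin p → Fin n → ℤ} {G : Fin c → Finset (Fin n → ℤ)}
    (hG : ∀ j, (G j).Nonempty)
    (hx : ∀ j, ∀ m ∈ G j, ∃ i, low (G j) (toReal (v i)) < pair m (toReal (v i)))
    {f : (Fin n → ℝ) → ℝ} (hf : Sub f)
    (hle : ∀ i, f (toReal (v i)) - lam G (toReal (v i)) ≤ 1) {z : Fin n → ℤ}
    (hz : toReal z ∈ interior (coneOf v)) (ht : ¬ Trop G (toReal z)) :
    ∃ I : Finset (Fin p), I.Nonempty ∧
      f (toReal (z + ∑ i ∈ I, v i)) - lam G (toReal (z + ∑ i ∈ I, v i)) ≤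
        f (toReal z) - lam G (toReal z) := by
  classical
  obtain ⟨a, ha, hw⟩ := interior_pos hz
  obtain ⟨I, hI, hcard⟩ := hitting v G hG hx ha hw ht
  refine ⟨I, hI, ?_⟩
  rw [toReal_add, toReal_sum]
  have h1 := hf.sum I (toReal z) fun i => toReal (v i)
  have h2 : lam G (toReal z) + ∑ i ∈ I, lam G (toReal (v i)) + (hits v G (toReal z) I).card ≤
      lam G (toReal z + ∑ i ∈ I, toReal (v i)) := by
    have h3 : ((hits v G (toReal z) I).card : ℝ) =
        ∑ j, if j ∈ hits v G (toReal z) I then (1 : ℝ) else 0 := by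
      rw [Finset.sum_ite_mem, Finset.univ_inter, Finset.sum_const, nsmul_eq_mul, mul_one]
    rw [h3]
    unfold lam
    rw [Finset.sum_comm, ← Finset.sum_add_distrib, ← Finset.sum_add_distrib]
    refine Finset.sum_le_sum fun j _ => ?_
    split_ifs with hj
    · exact low_raise (hG j) v z I (mem_hits.1 hj)
    · rw [add_zero]
      exact low_raise' (hG j) v _ I
  have h4 : ∑ i ∈ I, f (toReal (v i)) - ∑ i ∈ I, lam G (toReal (v i)) ≤ I.card := by
    rw [← Finset.sum_sub_distrib]
    refine (Finset.sum_le_sum fun i _ => hle i).trans ?_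
    simp
  have h5 : (I.card : ℝ) ≤ (hits v G (toReal z) I).card := by exact_mod_cast hcard
  linarith

end Pool.Agent.helper10.NDH
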